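import Pool.Agent.Helper86.QA.St3

set_option autoImplicit false

open MeasureTheory Matrix Set Topology
open scoped ENNReal ComplexConjugate

namespace Pool.Agent.Helper87.QA

open Pool.Agent.Helper86.QA

/-- real part of the off-diagonal entry -/
private noncomputable def fa (y : Pt) : ℝ := y.1.re / y.2
/-- imaginary part of the off-diagonal entry -/
private noncomputable def fb (y : Pt) : ℝ := y.1.im / y.2
/-- the first diagonal entry -/
private noncomputable def fp (y : Pt) : ℝ := (‖y.1‖ ^ 2 + y.2 ^ 2) / y.2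
/-- the second diagonal entry -/
private noncomputable def fr (y : Pt) : ℝ := 1 / y.2
/-- the difference of the diagonal entries -/
private noncomputable def fm (y : Pt) : ℝ := fp y - fr y

private theorem Dl_formula (hinv : ∀ x : Pt, (Xm x)⁻¹ = !![((1 / x.2 : ℝ) : ℂ), -(x.1 / (x.2 : ℂ));
      -(conj x.1 / (x.2 : ℂ)), (((‖x.1‖ ^ 2 + x.2 ^ 2) / x.2 : ℝ) : ℂ)]) (x y z : Pt) :
    Dl x oo y z = fm x * (fa y * fb z - fb y * fa z) + fa x * (fb y * fm z - fm y * fb z) +
      fb x * (fm y * fa z - fa y * fm z) := by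
  have h1 : (Xm oo)⁻¹ = 1 := by
    rw [hinv]
    ext i j
    fin_cases i <;> fin_cases j <;> simp [oo]
  have e1 : ∀ w : Pt, (w.1 / (w.2 : ℂ)) = (fa w : ℂ) + (fb w : ℂ) * Complex.I := by
    intro w
    apply Complex.ext
    · simp [fa]
    · simp [fb]
  have e2 : ∀ w : Pt, (conj w.1 / (w.2 : ℂ)) = (fa w : ℂ) - (fb w : ℂ) * Complex.I := by
    intro w
    apply Complex.ext
    · simp [fa]
    · simp [fb]
      ring
  have e3 : ∀ w : Pt, Xm w = !![(fp w : ℂ), (fa w : ℂ) + (fb w : ℂ) * Complex.I;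
      (fa w : ℂ) - (fb w : ℂ) * Complex.I, (fr w : ℂ)] := by
    intro w
    unfold Xm
    rw [e1, e2]
    rfl
  have e4 : ∀ w : Pt, (Xm w)⁻¹ = !![(fr w : ℂ), -((fa w : ℂ) + (fb w : ℂ) * Complex.I);
      -((fa w : ℂ) - (fb w : ℂ) * Complex.I), (fp w : ℂ)] := by
    intro w
    rw [hinv, e1, e2]
    rfl
  unfold Dl
  rw [h1, mul_one, e4 z, e3 x, e3 y]
  simp only [fm]
  simp [Matrix.trace_fin_two]
  ring

private theorem mp_ga (hACT : StACT) (hVOL : StVOL) (g : SL) : MeasurePreserving (ga g) vol vol := by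
  have hm : Measurable (ga g) := (hACT.2.2.2.1 g).1
  refine ⟨hm, ?_⟩
  ext s hs
  rw [Measure.map_apply hm hs]
  have h := hVOL.2.1 g (s.indicator 1) (measurable_one.indicator hs)
  have h1 : (fun x => s.indicator (1 : Pt → ℝ≥0∞) (ga g x)) =
      ((ga g) ⁻¹' s).indicator (1 : Pt → ℝ≥0∞) := by
    ext x
    by_cases hx : ga g x ∈ s
    · rw [Set.indicator_of_mem hx, Set.indicator_of_mem (show x ∈ (ga g) ⁻¹' s from hx)]
      rfl
    · rw [Set.indicator_of_notMem hx, Set.indicator_of_notMem (show x ∉ (ga g) ⁻¹' s from hx)]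
  rw [h1, lintegral_indicator_one (hm hs), lintegral_indicator_one hs] at h
  exact h

private theorem int_ga (hACT : StACT) (hVOL : StVOL) (g : SL) (f : Pt → ℝ) (hf : Measurable f) :
    ∫ y, f (ga g y) ∂vol = ∫ y, f y ∂vol := by
  have h := mp_ga hACT hVOL g
  have h2 := integral_map (μ := vol) h.measurable.aemeasurable
    (f := f) (hf.aestronglyMeasurable)
  rw [h.map_eq] at h2
  exact h2.symm

private theorem kk_meas (hCHI : StCHI) : Measurable (fun y : Pt => kk oo y) := by
  unfold StCHI at hCHI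
  have h := hCHI.2.2.2.2.2
  have h2 : Measurable (fun y : Pt => ((oo, y) : Pt × Pt)) :=
    measurable_const.prodMk measurable_id
  have h3 := h.comp h2
  have h4 : ((fun p : Pt × Pt => kk p.1 p.2) ∘ (fun y : Pt => ((oo, y) : Pt × Pt))) =
      fun y => kk oo y := by
    funext y
    rfl
  rw [h4] at h3
  exact h3

private theorem kk_nonneg (x y : Pt) : 0 ≤ kk x y := by
  unfold kk; split_ifs <;> norm_num

private theorem kk_cases (x y : Pt) : (kk x y = 0) ∨ (kk x y = 1 ∧ ch x y ≤ 2) := by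
  unfold kk
  split_ifs with h
  · exact Or.inr ⟨rfl, h⟩
  · exact Or.inl rfl

private theorem oo_up : oo ∈ up := by
  show (0 : ℝ) < 1
  norm_num

private theorem int1 (hCHI : StCHI) (hKRN : StKRN) (f : Pt → ℝ) (hf : Measurable f) (C : ℝ)
    (hC : ∀ y ∈ up, ch oo y ≤ 2 → |f y| ≤ C) : Integrable (fun y => kk oo y * f y) vol := by
  have hk := (hKRN.2.2 oo oo_up).1
  refine Integrable.mono' (hk.const_mul C) ((kk_meas hCHI).mul hf).aestronglyMeasurable ?_
  filter_upwards [ae_up] with y hy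
  rw [Real.norm_eq_abs, abs_mul]
  rcases kk_cases oo y with h | ⟨h, h2⟩
  · rw [h]; simp
  · rw [h]
    have := hC y hy h2
    simpa using this

private theorem int2 (hCHI : StCHI) (hKRN : StKRN) (F : Pt × Pt → ℝ) (hF : Measurable F) (C : ℝ)
    (hC : ∀ y ∈ up, ∀ z ∈ up, ch oo y ≤ 2 → ch oo z ≤ 2 → |F (y, z)| ≤ C) :
    Integrable (fun p : Pt × Pt => kk oo p.1 * kk oo p.2 * F p) (vol.prod vol) := by
  have hk := (hKRN.2.2 oo oo_up).1
  have hkk : Integrable (fun p : Pt × Pt => kk oo p.1 * kk oo p.2) (vol.prod vol) :=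
    hk.mul_prod hk
  have hm : Measurable (fun p : Pt × Pt => kk oo p.1 * kk oo p.2) :=
    ((kk_meas hCHI).comp measurable_fst).mul ((kk_meas hCHI).comp measurable_snd)
  refine Integrable.mono' (hkk.const_mul C) (hm.mul hF).aestronglyMeasurable ?_
  have h1 : ∀ᵐ p : Pt × Pt ∂(vol.prod vol), p.1 ∈ up := Measure.quasiMeasurePreserving_fst.ae ae_up
  have h2 : ∀ᵐ p : Pt × Pt ∂(vol.prod vol), p.2 ∈ up := Measure.quasiMeasurePreserving_snd.ae ae_up
  filter_upwards [h1, h2] with p hp1 hp2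
  rw [Real.norm_eq_abs, abs_mul]
  rcases kk_cases oo p.1 with h | ⟨h, h3⟩
  · rw [h]; simp
  · rcases kk_cases oo p.2 with h' | ⟨h', h4⟩
    · rw [h']; simp
    · rw [h, h']
      have := hC p.1 hp1 p.2 hp2 h3 h4
      simpa using this

private theorem ball_bds (hCHI : StCHI) (y : Pt) (hy : y ∈ up) (h : ch oo y ≤ 2) :
    1 / 4 ≤ y.2 ∧ y.2 ≤ 4 ∧ |y.1.re| ≤ 4 ∧ |y.1.im| ≤ 4 ∧ |fa y| ≤ 16 ∧ |fb y| ≤ 16 ∧
      |fm y| ≤ 16 ∧ |Real.log y.2| ≤ 4 := by
  have hy' : 0 < y.2 := hy
  obtain ⟨h1, h2, h3⟩ := hCHI.2.2.2.1 oo oo_up y hy h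
  have hl : ll ≤ 4 := by
    unfold ll
    have : Real.sqrt 3 ≤ 2 := by
      rw [Real.sqrt_le_left (by norm_num)]
      norm_num
    linarith
  simp only [oo, mul_one, zero_sub, norm_neg] at h1 h2 h3
  have b2 : y.2 ≤ 4 := by linarith
  have b1 : 1 / 4 ≤ y.2 := by nlinarith
  have b3 : ‖y.1‖ ^ 2 ≤ 8 := by linarith
  have b4 : ‖y.1‖ ≤ 4 := by
    by_contra hcon
    push Not at hcon
    nlinarith
  have b5 : |y.1.re| ≤ 4 := (Complex.abs_re_le_norm _).trans b4
  have b6 : |y.1.im| ≤ 4 := (Complex.abs_im_le_norm _).trans b4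
  refine ⟨b1, b2, b5, b6, ?_, ?_, ?_, ?_⟩
  · unfold fa
    rw [abs_div, abs_of_pos hy', div_le_iff₀ hy']
    linarith
  · unfold fb
    rw [abs_div, abs_of_pos hy', div_le_iff₀ hy']
    linarith
  · unfold ch at h
    simp only [oo, mul_one, zero_sub, norm_neg] at h
    rw [div_le_iff₀ (by positivity)] at h
    unfold fm fp fr
    rw [← sub_div, abs_div, abs_of_pos hy', div_le_iff₀ hy', abs_le]
    have := sq_nonneg ‖y.1‖
    constructor <;> nlinarith
  · rw [abs_le]
    constructor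
    · have h5 := Real.log_le_sub_one_of_pos (by positivity : 0 < y.2⁻¹)
      rw [Real.log_inv] at h5
      have h6 : y.2⁻¹ ≤ 4 := by
        rw [inv_le_comm₀ hy' (by norm_num)]
        linarith
      linarith
    · have h5 := Real.log_le_sub_one_of_pos hy'
      linarith

private theorem meas_fns : Measurable fa ∧ Measurable fb ∧ Measurable fm ∧
    Measurable (fun y : Pt => Real.log y.2) ∧ Measurable (fun y : Pt => y.1.re) ∧
    Measurable (fun y : Pt => y.1.im) := by
  have h1 : Measurable (fun y : Pt => y.1.re) := Complex.measurable_re.comp measurable_fst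
  have h2 : Measurable (fun y : Pt => y.1.im) := Complex.measurable_im.comp measurable_fst
  refine ⟨h1.div measurable_snd, h2.div measurable_snd, ?_, measurable_snd.log, h1, h2⟩
  exact ((((measurable_fst.norm).pow_const 2).add (measurable_snd.pow_const 2)).div
    measurable_snd).sub (measurable_const.div measurable_snd)

/-- nonempty open subsets of the upper half space have positive volume -/
private theorem vol_pos (S : Set Pt) (hS : IsOpen S) (hne : S.Nonempty) (hsub : S ⊆ up) :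
    0 < vol S := by
  rw [pos_iff_ne_zero]
  intro h0
  unfold vol at h0
  have hf : Measurable (fun x : Pt => ENNReal.ofReal (1 / x.2 ^ 3)) :=
    (measurable_const.div (measurable_snd.pow_const 3)).ennreal_ofReal
  rw [withDensity_apply_eq_zero hf] at h0
  have h1 : S ⊆ {x : Pt | ENNReal.ofReal (1 / x.2 ^ 3) ≠ 0} ∩ S := by
    intro x hx
    refine ⟨?_, hx⟩
    have hx2 : 0 < x.2 := hsub hx
    simp only [Set.mem_ofPred_eq, ne_eq, ENNReal.ofReal_eq_zero, not_le]
    positivity
  have h2 := measure_mono_null h1 h0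
  rw [Measure.restrict_apply hS.measurableSet, Set.inter_eq_left.mpr hsub] at h2
  exact (hS.measure_pos volume hne).ne' h2

/-- a small box -/
private def bx (z : ℂ) (t : ℝ) : Set Pt := {y | ‖y.1 - z‖ < 1 / 8 ∧ |y.2 - t| < 1 / 8}

private theorem bx_open (z : ℂ) (t : ℝ) : IsOpen (bx z t) := by
  apply IsOpen.inter
  · exact isOpen_lt ((continuous_fst.sub continuous_const).norm) continuous_const
  · exact isOpen_lt ((continuous_snd.sub continuous_const).abs) continuous_const

private theorem bx_pos (z : ℂ) (t : ℝ) (ht : 1 ≤ t) : 0 < vol (bx z t) := by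
  apply vol_pos _ (bx_open z t) ⟨(z, t), by simp [bx]⟩
  intro y hy
  have := abs_lt.mp hy.2
  show 0 < y.2
  linarith

/-- the first factor is positive -/
private theorem M_pos (hACT : StACT) (hCHI : StCHI) (hVOL : StVOL) (hKRN : StKRN) :
    0 < ∫ y, kk oo y * (Real.log y.2 * fm y) ∂vol := by
  obtain ⟨ma, mb', mm, ml, mre, mim⟩ := meas_fns
  have hmeas : Measurable (fun y : Pt => kk oo y * (Real.log y.2 * fm y)) :=
    (kk_meas hCHI).mul (ml.mul mm)
  have hint : Integrable (fun y : Pt => kk oo y * (Real.log y.2 * fm y)) vol := by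
    apply int1 hCHI hKRN _ (ml.mul mm) (4 * 16)
    intro y hy h
    obtain ⟨b1, b2, b3, b4, b5, b6, b7, b8⟩ := ball_bds hCHI y hy h
    show |Real.log y.2 * fm y| ≤ 4 * 16
    rw [abs_mul]
    exact mul_le_mul b8 b7 (abs_nonneg _) (by norm_num)
  have hJ := int_ga hACT hVOL gJ (fun y : Pt => kk oo y * (Real.log y.2 * fm y)) hmeas
  -- explicit form of the inversion
  have hgJ : ∀ y ∈ up, ga gJ y = (-conj y.1 / ((‖y.1‖ ^ 2 + y.2 ^ 2 : ℝ) : ℂ),
      y.2 / (‖y.1‖ ^ 2 + y.2 ^ 2)) := by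
    intro y _
    unfold ga den gJ
    simp
  have hoo : ga gJ oo = oo := by
    rw [hgJ oo oo_up]
    simp [oo]
  have hpt : ∀ y ∈ up, kk oo (ga gJ y) * (Real.log (ga gJ y).2 * fm (ga gJ y)) =
      kk oo y * (Real.log (fp y) * fm y) := by
    intro y hy
    have hy' : 0 < y.2 := hy
    have hk : kk oo (ga gJ y) = kk oo y := by
      have := (hCHI.2.1 gJ oo oo_up y hy).2
      rwa [hoo] at this
    have hN : 0 < ‖y.1‖ ^ 2 + y.2 ^ 2 := by positivity
    have h1 : (ga gJ y).2 = (fp y)⁻¹ := by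
      rw [hgJ y hy]; unfold fp; simp
    have hn : ‖(ga gJ y).1‖ ^ 2 = ‖y.1‖ ^ 2 / (‖y.1‖ ^ 2 + y.2 ^ 2) ^ 2 := by
      rw [hgJ y hy]
      simp only [norm_div, norm_neg, RCLike.norm_conj, Complex.norm_real, div_pow]
      rw [Real.norm_eq_abs, sq_abs]
    have h2 : fr (ga gJ y) = fp y := by
      unfold fr; rw [h1]; simp
    have h3 : fp (ga gJ y) = fr y := by
      have h4 : fp (ga gJ y) = (‖(ga gJ y).1‖ ^ 2 + (ga gJ y).2 ^ 2) / (ga gJ y).2 := rfl
      rw [h4, hn, h1]
      unfold fp fr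
      field_simp
    rw [hk, h1, Real.log_inv]
    unfold fm
    rw [h2, h3]
    ring
  have hcong : (fun y => kk oo y * (Real.log y.2 * fm y) + kk oo y * (Real.log (fp y) * fm y)) =
      fun y => kk oo y * ((Real.log (fp y) - Real.log (fr y)) * (fp y - fr y)) := by
    funext y
    have : Real.log (fr y) = - Real.log y.2 := by
      unfold fr; rw [one_div, Real.log_inv]
    rw [this]
    simp only [fm]
    ring
  have hint2 : Integrable (fun y => kk oo y * (Real.log (fp y) * fm y)) vol := by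
    have h4 : Integrable (fun y => kk oo (ga gJ y) * (Real.log (ga gJ y).2 * fm (ga gJ y))) vol :=
      (mp_ga hACT hVOL gJ).integrable_comp_of_integrable hint
    refine h4.congr ?_
    filter_upwards [ae_up] with y hy
    exact hpt y hy
  have h2M : 2 * ∫ y, kk oo y * (Real.log y.2 * fm y) ∂vol =
      ∫ y, kk oo y * ((Real.log (fp y) - Real.log (fr y)) * (fp y - fr y)) ∂vol := by
    have h3 : ∫ y, kk oo y * (Real.log (fp y) * fm y) ∂vol =
        ∫ y, kk oo y * (Real.log y.2 * fm y) ∂vol := by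
      rw [← hJ]
      apply integral_congr_ae
      filter_upwards [ae_up] with y hy
      exact (hpt y hy).symm
    have h5 := integral_add hint hint2
    rw [h3] at h5
    rw [two_mul, ← h5]
    exact congrArg (fun f : Pt → ℝ => ∫ y, f y ∂vol) hcong
  have hnonneg : 0 ≤ᵐ[vol] fun y => kk oo y * ((Real.log (fp y) - Real.log (fr y)) *
      (fp y - fr y)) := by
    filter_upwards [ae_up] with y hy
    have hy' : 0 < y.2 := hy
    have hp : 0 < fp y := by unfold fp; positivity
    have hr : 0 < fr y := by unfold fr; positivity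
    apply mul_nonneg (kk_nonneg _ _)
    rcases le_total (fp y) (fr y) with h | h
    · have := Real.log_le_log hp h
      exact mul_nonneg_of_nonpos_of_nonpos (by linarith) (by linarith)
    · have := Real.log_le_log hr h
      exact mul_nonneg (by linarith) (by linarith)
  have hint3 : Integrable (fun y => kk oo y * ((Real.log (fp y) - Real.log (fr y)) *
      (fp y - fr y))) vol := by
    have h5 := hint.add hint2
    exact hcong ▸ h5
  have hpos : 0 < ∫ y, kk oo y * ((Real.log (fp y) - Real.log (fr y)) * (fp y - fr y)) ∂vol := by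
    rw [integral_pos_iff_support_of_nonneg_ae hnonneg hint3]
    refine lt_of_lt_of_le (bx_pos 0 (3 / 2) (by norm_num)) (measure_mono ?_)
    intro y hy
    have h1 := hy.1
    have h2 := abs_lt.mp hy.2
    rw [sub_zero] at h1
    have hy' : 0 < y.2 := by linarith
    have hn := norm_nonneg y.1
    have hk : kk oo y = 1 := by
      unfold kk
      rw [if_pos]
      unfold ch
      simp only [oo, mul_one, zero_sub, norm_neg]
      rw [div_le_iff₀ (by positivity)]
      nlinarith
    have hr : fr y < 1 := by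
      unfold fr
      rw [div_lt_one hy']
      linarith
    have hr0 : 0 < fr y := by unfold fr; positivity
    have hp : 1 < fp y := by
      unfold fp
      rw [lt_div_iff₀ hy']
      nlinarith
    have hlog : Real.log (fr y) < Real.log (fp y) := Real.log_lt_log hr0 (by linarith)
    rw [Function.mem_support, hk, one_mul]
    have : 0 < (Real.log (fp y) - Real.log (fr y)) * (fp y - fr y) :=
      mul_pos (by linarith) (by linarith)
    exact this.ne'
  linarith

/-- the rotation by a half turn -/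
private noncomputable def gR : SL := ⟨!![Complex.I, 0; 0, -Complex.I], by
  simp [Matrix.det_fin_two]⟩

private theorem gR_ga (y : Pt) : ga gR y = (-y.1, y.2) := by
  unfold ga den gR
  simp
  have : Complex.I * y.1 * Complex.I = (Complex.I * Complex.I) * y.1 := by ring
  rw [this, Complex.I_mul_I]
  ring

/-- the odd integrals vanish -/
private theorem odd_zero (hACT : StACT) (hCHI : StCHI) (hVOL : StVOL) (f : Pt → ℝ)
    (hf : Measurable f) (hodd : ∀ y : Pt, f (-y.1, y.2) = - f y) :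
    ∫ y, kk oo y * f y ∂vol = 0 := by
  have hmeas : Measurable (fun y : Pt => kk oo y * f y) := (kk_meas hCHI).mul hf
  have h := int_ga hACT hVOL gR (fun y : Pt => kk oo y * f y) hmeas
  have hoo : ga gR oo = oo := by
    rw [gR_ga]
    simp [oo]
  have h2 : ∫ y, kk oo (ga gR y) * f (ga gR y) ∂vol = ∫ y, -(kk oo y * f y) ∂vol := by
    apply integral_congr_ae
    filter_upwards [ae_up] with y hy
    have h3 : kk oo (ga gR y) = kk oo y := by
      have := (hCHI.2.1 gR oo oo_up y hy).2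
      rwa [hoo] at this
    rw [h3, gR_ga, hodd]
    ring
  rw [h2, integral_neg] at h
  linarith

private theorem B0_pos (hCHI : StCHI) (hKRN : StKRN) :
    0 < ∫ p : Pt × Pt, kk oo p.1 * kk oo p.2 * (dt2 p.1.1 p.2.1 *
      (fa p.1 * fb p.2 - fb p.1 * fa p.2)) ∂(vol.prod vol) := by
  obtain ⟨ma, mb', mm, ml, mre, mim⟩ := meas_fns
  have hdt : ∀ p : Pt × Pt, dt2 p.1.1 p.2.1 * (fa p.1 * fb p.2 - fb p.1 * fa p.2) =
      dt2 p.1.1 p.2.1 ^ 2 / (p.1.2 * p.2.2) := by
    intro p
    unfold fa fb dt2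
    rw [div_mul_div_comm, div_mul_div_comm]
    ring
  have mdt : Measurable (fun p : Pt × Pt => dt2 p.1.1 p.2.1) := by
    unfold dt2
    exact ((mre.comp measurable_fst).mul (mim.comp measurable_snd)).sub
      ((mim.comp measurable_fst).mul (mre.comp measurable_snd))
  have hF : Measurable (fun p : Pt × Pt => dt2 p.1.1 p.2.1 *
      (fa p.1 * fb p.2 - fb p.1 * fa p.2)) :=
    mdt.mul (((ma.comp measurable_fst).mul (mb'.comp measurable_snd)).sub
      ((mb'.comp measurable_fst).mul (ma.comp measurable_snd)))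
  have hint := int2 hCHI hKRN (fun p : Pt × Pt => dt2 p.1.1 p.2.1 *
      (fa p.1 * fb p.2 - fb p.1 * fa p.2)) hF ((4 * 4 + 4 * 4) * (16 * 16 + 16 * 16)) (by
    intro y hy z hz h h'
    obtain ⟨b1, b2, b3, b4, b5, b6, b7, b8⟩ := ball_bds hCHI y hy h
    obtain ⟨c1, c2, c3, c4, c5, c6, c7, c8⟩ := ball_bds hCHI z hz h'
    show |dt2 y.1 z.1 * (fa y * fb z - fb y * fa z)| ≤ _
    rw [abs_mul]
    apply mul_le_mul _ _ (abs_nonneg _) (by norm_num)
    · unfold dt2
      refine (abs_sub _ _).trans ?_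
      rw [abs_mul, abs_mul]
      exact add_le_add (mul_le_mul b3 c4 (abs_nonneg _) (by norm_num))
        (mul_le_mul b4 c3 (abs_nonneg _) (by norm_num))
    · refine (abs_sub _ _).trans ?_
      rw [abs_mul, abs_mul]
      exact add_le_add (mul_le_mul b5 c6 (abs_nonneg _) (by norm_num))
        (mul_le_mul b6 c5 (abs_nonneg _) (by norm_num)))
  have h1 : ∀ᵐ p : Pt × Pt ∂(vol.prod vol), p.1 ∈ up := Measure.quasiMeasurePreserving_fst.ae ae_up
  have h2 : ∀ᵐ p : Pt × Pt ∂(vol.prod vol), p.2 ∈ up := Measure.quasiMeasurePreserving_snd.ae ae_up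
  have hnn : 0 ≤ᵐ[vol.prod vol] fun p : Pt × Pt => kk oo p.1 * kk oo p.2 * (dt2 p.1.1 p.2.1 *
      (fa p.1 * fb p.2 - fb p.1 * fa p.2)) := by
    filter_upwards [h1, h2] with p hp1 hp2
    rw [hdt]
    have e1 : 0 < p.1.2 := hp1
    have e2 : 0 < p.2.2 := hp2
    exact mul_nonneg (mul_nonneg (kk_nonneg _ _) (kk_nonneg _ _)) (by positivity)
  rw [integral_pos_iff_support_of_nonneg_ae hnn hint]
  have hb : 0 < (vol.prod vol) (bx (1 / 2) 1 ×ˢ bx (Complex.I / 2) 1) := by
    rw [Measure.prod_prod]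
    exact ENNReal.mul_pos (bx_pos _ _ le_rfl).ne' (bx_pos _ _ le_rfl).ne'
  refine lt_of_lt_of_le hb (measure_mono ?_)
  rintro ⟨y, z⟩ ⟨hy, hz⟩
  have hk : ∀ (w : ℂ) (x : Pt), ‖w‖ = 1 / 2 → x ∈ bx w 1 → kk oo x = 1 := by
    intro w x hw hx
    have e1 := hx.1
    have e2 := abs_lt.mp hx.2
    have e3 : ‖x.1‖ ≤ 5 / 8 := by
      have := norm_add_le (x.1 - w) w
      rw [sub_add_cancel, hw] at this
      linarith
    have hx' : 0 < x.2 := by linarith
    have hn := norm_nonneg x.1
    unfold kk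
    rw [if_pos]
    unfold ch
    simp only [oo, mul_one, zero_sub, norm_neg]
    rw [div_le_iff₀ (by positivity)]
    nlinarith
  have ky := hk (1 / 2) y (by norm_num) hy
  have kz := hk (Complex.I / 2) z (by simp) hz
  have y1 := abs_lt.mp (lt_of_le_of_lt (Complex.abs_re_le_norm _) hy.1)
  have y2 := abs_lt.mp (lt_of_le_of_lt (Complex.abs_im_le_norm _) hy.1)
  have z1 := abs_lt.mp (lt_of_le_of_lt (Complex.abs_re_le_norm _) hz.1)
  have z2 := abs_lt.mp (lt_of_le_of_lt (Complex.abs_im_le_norm _) hz.1)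
  simp at y1 y2 z1 z2
  have hd : 0 < dt2 y.1 z.1 := by
    unfold dt2
    nlinarith
  have hy' : 0 < y.2 := by
    have := abs_lt.mp hy.2
    linarith
  have hz' : 0 < z.2 := by
    have := abs_lt.mp hz.2
    linarith
  rw [Function.mem_support]
  simp only
  rw [ky, kz]
  have := hdt (y, z)
  simp only at this
  rw [this]
  have : 0 < 1 * 1 * (dt2 y.1 z.1 ^ 2 / (y.2 * z.2)) := by positivity
  exact this.ne'

theorem hCON (hACT : StACT) (hCHI : StCHI) (hVOL : StVOL) (hKRN : StKRN) (hDLF : StDLF) :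
    StCON := by
  obtain ⟨ma, mb', mm, ml, mre, mim⟩ := meas_fns
  have hinv := hDLF.1
  have mdt : Measurable (fun p : Pt × Pt => dt2 p.1.1 p.2.1) := by
    unfold dt2
    exact ((mre.comp measurable_fst).mul (mim.comp measurable_snd)).sub
      ((mim.comp measurable_fst).mul (mre.comp measurable_snd))
  have bdt : ∀ y ∈ up, ∀ z ∈ up, ch oo y ≤ 2 → ch oo z ≤ 2 → |dt2 y.1 z.1| ≤ 4 * 4 + 4 * 4 := by
    intro y hy z hz h h'
    obtain ⟨b1, b2, b3, b4, b5, b6, b7, b8⟩ := ball_bds hCHI y hy h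
    obtain ⟨c1, c2, c3, c4, c5, c6, c7, c8⟩ := ball_bds hCHI z hz h'
    unfold dt2
    refine (abs_sub _ _).trans ?_
    rw [abs_mul, abs_mul]
    exact add_le_add (mul_le_mul b3 c4 (abs_nonneg _) (by norm_num))
      (mul_le_mul b4 c3 (abs_nonneg _) (by norm_num))
  -- the three factors in the first variable
  have hA : ∀ f : Pt → ℝ, Measurable f → (∀ y ∈ up, ch oo y ≤ 2 → |f y| ≤ 16) →
      Integrable (fun y => kk oo y * (Real.log y.2 * f y)) vol := by
    intro f hf hb
    apply int1 hCHI hKRN (fun y => Real.log y.2 * f y) (ml.mul hf) (4 * 16)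
    intro y hy h
    obtain ⟨b1, b2, b3, b4, b5, b6, b7, b8⟩ := ball_bds hCHI y hy h
    rw [abs_mul]
    exact mul_le_mul b8 (hb y hy h) (abs_nonneg _) (by norm_num)
  have hB : ∀ f g : Pt → ℝ, Measurable f → Measurable g →
      (∀ y ∈ up, ch oo y ≤ 2 → |f y| ≤ 16) → (∀ y ∈ up, ch oo y ≤ 2 → |g y| ≤ 16) →
      Integrable (fun p : Pt × Pt => kk oo p.1 * kk oo p.2 * (dt2 p.1.1 p.2.1 *
        (f p.1 * g p.2 - g p.1 * f p.2))) (vol.prod vol) := by
    intro f g hf hg bf bg
    apply int2 hCHI hKRN (fun p : Pt × Pt => dt2 p.1.1 p.2.1 *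
        (f p.1 * g p.2 - g p.1 * f p.2)) (mdt.mul (((hf.comp measurable_fst).mul
          (hg.comp measurable_snd)).sub ((hg.comp measurable_fst).mul (hf.comp measurable_snd))))
        ((4 * 4 + 4 * 4) * (16 * 16 + 16 * 16))
    intro y hy z hz h h'
    simp only
    rw [abs_mul]
    apply mul_le_mul (bdt y hy z hz h h') _ (abs_nonneg _) (by norm_num)
    refine (abs_sub _ _).trans ?_
    rw [abs_mul, abs_mul]
    exact add_le_add (mul_le_mul (bf y hy h) (bg z hz h') (abs_nonneg _) (by norm_num))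
      (mul_le_mul (bg y hy h) (bf z hz h') (abs_nonneg _) (by norm_num))
  have ba : ∀ y ∈ up, ch oo y ≤ 2 → |fa y| ≤ 16 := fun y hy h =>
    (ball_bds hCHI y hy h).2.2.2.2.1
  have bb : ∀ y ∈ up, ch oo y ≤ 2 → |fb y| ≤ 16 := fun y hy h =>
    (ball_bds hCHI y hy h).2.2.2.2.2.1
  have bm : ∀ y ∈ up, ch oo y ≤ 2 → |fm y| ≤ 16 := fun y hy h =>
    (ball_bds hCHI y hy h).2.2.2.2.2.2.1
  have i0 := (hA fm mm bm).mul_prod (hB fa fb ma mb' ba bb)
  have i1 := (hA fa ma ba).mul_prod (hB fb fm mb' mm bb bm)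
  have i2 := (hA fb mb' bb).mul_prod (hB fm fa mm ma bm ba)
  have hfun : (fun p : Pt × Pt × Pt => KK p.1 oo p.2.1 p.2.2 * Real.log p.1.2 *
      dt2 p.2.1.1 p.2.2.1) = fun p : Pt × Pt × Pt =>
      (kk oo p.1 * (Real.log p.1.2 * fm p.1)) * (kk oo p.2.1 * kk oo p.2.2 *
        (dt2 p.2.1.1 p.2.2.1 * (fa p.2.1 * fb p.2.2 - fb p.2.1 * fa p.2.2))) +
      (kk oo p.1 * (Real.log p.1.2 * fa p.1)) * (kk oo p.2.1 * kk oo p.2.2 *
        (dt2 p.2.1.1 p.2.2.1 * (fb p.2.1 * fm p.2.2 - fm p.2.1 * fb p.2.2))) +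
      (kk oo p.1 * (Real.log p.1.2 * fb p.1)) * (kk oo p.2.1 * kk oo p.2.2 *
        (dt2 p.2.1.1 p.2.2.1 * (fm p.2.1 * fa p.2.2 - fa p.2.1 * fm p.2.2))) := by
    funext p
    unfold KK
    rw [Dl_formula hinv]
    ring
  constructor
  · unfold cK vol3
    have s1 := integral_add (i0.add i1) i2
    simp only [Pi.add_apply] at s1
    rw [integral_add i0 i1] at s1
    rw [hfun, s1]
    have e0 := integral_prod_mul (μ := vol) (ν := vol.prod vol)
      (fun y : Pt => kk oo y * (Real.log y.2 * fm y))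
      (fun p : Pt × Pt => kk oo p.1 * kk oo p.2 *
        (dt2 p.1.1 p.2.1 * (fa p.1 * fb p.2 - fb p.1 * fa p.2)))
    have e1 := integral_prod_mul (μ := vol) (ν := vol.prod vol)
      (fun y : Pt => kk oo y * (Real.log y.2 * fa y))
      (fun p : Pt × Pt => kk oo p.1 * kk oo p.2 *
        (dt2 p.1.1 p.2.1 * (fb p.1 * fm p.2 - fm p.1 * fb p.2)))
    have e2 := integral_prod_mul (μ := vol) (ν := vol.prod vol)
      (fun y : Pt => kk oo y * (Real.log y.2 * fb y))
      (fun p : Pt × Pt => kk oo p.1 * kk oo p.2 *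
        (dt2 p.1.1 p.2.1 * (fm p.1 * fa p.2 - fa p.1 * fm p.2)))
    have z1 : ∫ y, kk oo y * (Real.log y.2 * fa y) ∂vol = 0 := by
      apply odd_zero hACT hCHI hVOL (fun y => Real.log y.2 * fa y) (ml.mul ma)
      intro y
      simp only [fa, Complex.neg_re]
      ring
    have z2 : ∫ y, kk oo y * (Real.log y.2 * fb y) ∂vol = 0 := by
      apply odd_zero hACT hCHI hVOL (fun y => Real.log y.2 * fb y) (ml.mul mb')
      intro y
      simp only [fb, Complex.neg_im]
      ring
    rw [z1, zero_mul] at e1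
    rw [z2, zero_mul] at e2
    rw [e0, e1, e2, add_zero, add_zero]
    exact mul_pos (M_pos hACT hCHI hVOL hKRN) (B0_pos hCHI hKRN)
  · rw [hfun]
    exact (i0.add i1).add i2

end Pool.Agent.Helper87.QA
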