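import Pool.Agent.Helper86.QA.St5

set_option autoImplicit false

open MeasureTheory Matrix Set Topology Filter
open scoped ENNReal ComplexConjugate ComplexOrder

namespace Pool.Agent.Helper87.QA

open Pool.Agent.Helper86.QA
open Pool.Agent.Helper20.QD (Fuch IsSU mob dz dzb)
open Pool.Agent.Helper20

/-- the image of a fundamental domain under an equivariant homeomorphism -/
private theorem fd_image {Γ : Type} [Group Γ] (σ τ : Γ →* SL) (E : ℂ → ℂ) (F : Set ℂ)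
    (hact : ActOn (ad σ) (Metric.ball 0 1) m2) (hF : FDOn (ad σ) (Metric.ball 0 1) F)
    (hE : ContinuousOn E (Metric.closedBall 0 1))
    (hb : BijOn E (Metric.ball 0 1) (Metric.ball 0 1))
    (heq : ∀ γ : Γ, ∀ z ∈ Metric.closedBall (0 : ℂ) 1, E (mob (σ γ) z) = mob (τ γ) (E z)) :
    FDOn (ad τ) (Metric.ball 0 1) (E '' F) := by
  have hsub : F ⊆ Metric.ball (0 : ℂ) 1 := hF.sub
  refine ⟨?_, ?_, ?_⟩
  · exact hF.mD.image_of_continuousOn_injOn
      (hE.mono (hsub.trans Metric.ball_subset_closedBall)) (hb.injOn.mono hsub)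
  · rintro _ ⟨x, hx, rfl⟩
    exact hb.mapsTo (hsub hx)
  · intro y hy
    obtain ⟨x, hx, rfl⟩ := hb.surjOn hy
    have key : ∀ γ : Γ, ad τ γ (E x) ∈ E '' F ↔ ad σ γ x ∈ F := by
      intro γ
      have h1 : ad τ γ (E x) = E (ad σ γ x) :=
        (heq γ x (Metric.ball_subset_closedBall hx)).symm
      rw [h1]
      exact hb.injOn.mem_image_iff hsub (hact.ms γ x hx)
    obtain ⟨γ, hγ, huniq⟩ := hF.ex x hx
    exact ⟨γ, (key γ).mpr hγ, fun δ hδ => huniq δ ((key δ).mp hδ)⟩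

/-- complex conjugation of a fundamental domain -/
private theorem fd_conj {Γ : Type} [Group Γ] (τ τ' : Γ →* SL) (F : Set ℂ)
    (h : ∀ γ i j, (τ' γ : Mat) i j = conj ((τ γ : Mat) i j))
    (hF : FDOn (ad τ') (Metric.ball 0 1) F) :
    FDOn (ad τ) (Metric.ball 0 1) ((fun z => conj z) ⁻¹' F) := by
  have hc : Continuous (fun z : ℂ => conj z) := Complex.continuous_conj
  refine ⟨hc.measurable hF.mD, ?_, ?_⟩
  · intro z hz
    have h1 := hF.sub hz
    rw [mem_ball_zero_iff] at h1 ⊢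
    simpa using h1
  · intro z hz
    have hz' : conj z ∈ Metric.ball (0 : ℂ) 1 := by
      rw [mem_ball_zero_iff] at hz ⊢
      simpa using hz
    have key : ∀ γ : Γ, ad τ γ z ∈ (fun z => conj z) ⁻¹' F ↔ ad τ' γ (conj z) ∈ F := by
      intro γ
      have h1 : conj (ad τ γ z) = ad τ' γ (conj z) := by
        show conj (mob (τ γ) z) = mob (τ' γ) (conj z)
        unfold mob
        rw [h, h, h, h]
        simp only [map_div₀, map_add, map_mul]
      rw [← h1]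
      rfl
    obtain ⟨γ, hγ, huniq⟩ := hF.ex (conj z) hz'
    exact ⟨γ, (key γ).mpr hγ, fun δ hδ => huniq δ ((key δ).mp hδ)⟩

/-- conjugation preserves the area -/
private theorem m2_conj (hMQ1 : StMQ1) (F : Set ℂ) (hF : MeasurableSet F) :
    m2 ((fun z => conj z) ⁻¹' F) = m2 F := by
  have hc : Continuous (fun z : ℂ => conj z) := Complex.continuous_conj
  have h := hMQ1.2.2.2.2.2.1 (F.indicator 1) (measurable_one.indicator hF)
  have h1 : (fun z => F.indicator (1 : ℂ → ℝ≥0∞) (conj z)) =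
      ((fun z => conj z) ⁻¹' F).indicator (1 : ℂ → ℝ≥0∞) := by
    ext x
    by_cases hx : conj x ∈ F
    · rw [Set.indicator_of_mem hx,
        Set.indicator_of_mem (show x ∈ (fun z => conj z) ⁻¹' F from hx)]
      rfl
    · rw [Set.indicator_of_notMem hx,
        Set.indicator_of_notMem (show x ∉ (fun z => conj z) ⁻¹' F from hx)]
  rw [h1, lintegral_indicator_one (hc.measurable hF), lintegral_indicator_one hF] at h
  exact h

theorem hAIN (hMQ1 : StMQ1) (hAFD : StAFD) (hAV1 : StAV1) (hAV2 : StAV2) (hAV3 : StAV3)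
    (hFTF : QD.StFTF) : StAIN := by
  intro Γ _ σ τ hσ hτ htf F F' hF hF'
  obtain ⟨_, actσ, ⟨F0, r, hr, hF0, hF0r⟩, areaσ, sameσ⟩ := hAFD Γ σ hσ htf
  obtain ⟨_, actτ, _, areaτ, sameτ⟩ := hAFD Γ τ hτ htf
  obtain ⟨E, k, τ', hk0, hk1, hτ', hcase, hEc, hEb, hEs, hE1, hEd, hEq⟩ := hFTF Γ σ τ hσ hτ
  obtain ⟨s, hs, hV⟩ := hAV1 Γ σ τ' E hσ hτ' htf hEc hEb hEs hEq
  obtain ⟨hA, c, hc, C, hC, ε0, hε0, hε02, hB⟩ := hAV2
  have hlt : ∀ z ∈ Metric.ball (0 : ℂ) 1, ‖dzb E z‖ < ‖dz E z‖ := by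
    intro z hz
    obtain ⟨h1, h2⟩ := hEd z hz
    have h3 : 0 < ‖dz E z‖ := norm_pos_iff.mpr h1
    nlinarith
  obtain ⟨hlim, hfin⟩ := hAV3 E r F0 hr hF0.mD hF0r hE1 hEb.mapsTo hEb.injOn hlt
  have hF0fin := areaσ F0 hF0
  have hpos0 : 0 < (m2 F0).toReal := ENNReal.toReal_pos hF0fin.2.1.ne' hF0fin.1.ne
  have hev : ∀ᶠ ε : ℝ in 𝓝[>] 0,
      V2 ε F0 (fun x y z => Ad (E x) (E y) (E z)) / c2 ε = s * (m2 F0).toReal := by
    have e1 : ∀ᶠ ε : ℝ in 𝓝[>] 0, ε < ε0 :=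
      (eventually_lt_nhds hε0).filter_mono nhdsWithin_le_nhds
    filter_upwards [e1, self_mem_nhdsWithin] with ε h1 h2
    have hε : 0 < ε := h2
    have hc2 : 0 < c2 ε := lt_of_lt_of_le (by positivity) (hB ε hε h1).1
    rw [hV F0 hF0 ε hε (by linarith), hA F0 ε hε (by linarith) hF0.sub hF0.mD hF0fin.1]
    field_simp
  have hlim2 : Tendsto (fun ε : ℝ => V2 ε F0 (fun x y z => Ad (E x) (E y) (E z)) / c2 ε)
      (𝓝[>] 0) (𝓝 (s * (m2 F0).toReal)) :=
    tendsto_const_nhds.congr' (hev.mono fun _ h => h.symm)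
  have heq : (m2 (E '' F0)).toReal = s * (m2 F0).toReal := tendsto_nhds_unique hlim hlim2
  have hs1 : s = 1 := by
    rcases hs with h | h
    · exact h
    · exfalso
      rw [h] at heq
      have := ENNReal.toReal_nonneg (a := m2 (E '' F0))
      linarith
  rw [hs1, one_mul] at heq
  have hFDE : FDOn (ad τ') (Metric.ball 0 1) (E '' F0) :=
    fd_image σ τ' E F0 actσ hF0 hEc hEb hEq
  -- a fundamental domain of `τ` of the same area
  have hex : ∃ F1 : Set ℂ, FDOn (ad τ) (Metric.ball 0 1) F1 ∧ m2 F1 = m2 (E '' F0) := by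
    rcases hcase with h | h
    · have : τ' = τ := MonoidHom.ext h
      subst this
      exact ⟨_, hFDE, rfl⟩
    · exact ⟨_, fd_conj τ τ' _ h hFDE, m2_conj hMQ1 _ hFDE.mD⟩
  obtain ⟨F1, hF1, hm⟩ := hex
  obtain ⟨a1, a2, a3⟩ := areaσ F hF
  obtain ⟨b1, b2, b3⟩ := areaτ F' hF'
  rw [a3, b3, sameσ F F0 hF hF0, sameτ F' F1 hF' hF1, hm, heq]
  exact ⟨rfl, hpos0⟩

end Pool.Agent.Helper87.QA
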